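import Pool.Agent.N929.EX.Stm
import Pool.Agent.Y981.CT

/-!
# Mean number of contacts between the past and the future of a time
-/

set_option autoImplicit false
set_option linter.unusedVariables false

namespace Pool.Agent.N441.EX

open Pool.Agent.H976R2 Pool.Agent.H976R2.Dir Finset Pool.Agent.N929.EX
open scoped Classical

/-- contacts of the word `w` across the time `t` -/
noncomputable def cc (n t : ℕ) (w : List Dir) : ℕ :=
  ((range (n + 1) ×ˢ range (n + 1)).filter (fun q : ℕ × ℕ => q.1 < t ∧ t < q.2 ∧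
      |(Lip.PP w q.2).1 - (Lip.PP w q.1).1| + |(Lip.PP w q.2).2 - (Lip.PP w q.1).2| = 1)).card

theorem cc_le (n t : ℕ) (w : List Dir) : cc n t w ≤ Pool.Agent.W840.CT.TT n t (pth n w) := by
  unfold cc Pool.Agent.W840.CT.TT
  refine Finset.card_le_card_of_injOn
    (fun q => (Fin.ofNat (n + 1) q.1, Fin.ofNat (n + 1) q.2)) ?_ ?_
  · rintro ⟨i, j⟩ hq
    simp only [coe_filter, mem_product, mem_range, Set.mem_ofPred_eq] at hq
    obtain ⟨⟨hi, hj⟩, h1, h2, h3⟩ := hq
    have ei : ((Fin.ofNat (n + 1) i : Fin (n + 1)) : ℕ) = i := by simp [Nat.mod_eq_of_lt hi]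
    have ej : ((Fin.ofNat (n + 1) j : Fin (n + 1)) : ℕ) = j := by simp [Nat.mod_eq_of_lt hj]
    simp only [coe_filter, mem_univ, true_and, Set.mem_ofPred_eq]
    refine ⟨by rw [ei]; exact h1, by rw [ej]; exact h2, ?_⟩
    unfold Pool.Agent.W840.CT.adj pth
    rw [ei, ej]
    exact h3
  · rintro ⟨i, j⟩ hq ⟨i', j'⟩ hq' h
    simp only [coe_filter, mem_product, mem_range, Set.mem_ofPred_eq] at hq hq'
    simp only [Prod.mk.injEq] at h
    have h1 := congrArg Fin.val h.1
    have h2 := congrArg Fin.val h.2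
    simp only [Fin.val_ofNat] at h1 h2
    rw [Nat.mod_eq_of_lt hq.1.1, Nat.mod_eq_of_lt hq'.1.1] at h1
    rw [Nat.mod_eq_of_lt hq.1.2, Nat.mod_eq_of_lt hq'.1.2] at h2
    rw [h1, h2]

theorem cc_bound (n t : ℕ) (w : List Dir) : cc n t w ≤ (n + 1) * (n + 1) := by
  unfold cc
  refine (card_filter_le _ _).trans ?_
  rw [card_product, card_range]

/-- layer cake -/
theorem layer {K A f : ℝ} (hK : 0 ≤ K) (M : ℕ) :
    min f (K * (A + M)) ≤ K * A + K * ∑ x ∈ range M, (if K * (A + x) < f then 1 else 0) := by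
  induction M with
  | zero => simp
  | succ M ih =>
    have e : K * A + K * ∑ x ∈ range (M + 1), (if K * (A + x) < f then (1 : ℝ) else 0) =
        (K * A + K * ∑ x ∈ range M, (if K * (A + x) < f then (1 : ℝ) else 0)) +
          K * (if K * (A + M) < f then 1 else 0) := by
      rw [sum_range_succ]
      ring
    rw [e]
    push_cast
    by_cases h : K * (A + M) < f
    · rw [if_pos h, mul_one]
      have h1 : min f (K * (A + M)) = K * (A + M) := min_eq_right h.le
      have h2 : min f (K * (A + (M + 1))) ≤ K * (A + (M + 1)) := min_le_right _ _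
      have h3 : K * (A + (M + 1)) = K * (A + M) + K := by ring
      linarith
    · rw [if_neg h, mul_zero, add_zero]
      push Not at h
      have h1 : min f (K * (A + M)) = f := min_eq_left h
      have h2 : min f (K * (A + (M + 1))) ≤ f := min_le_left _ _
      linarith

theorem geo (M : ℕ) : ∑ x ∈ range M, Real.exp (-(x : ℝ)) ≤ 2 := by
  have h1 : ∀ x : ℕ, Real.exp (-(x : ℝ)) ≤ (1 / 2 : ℝ) ^ x := by
    intro x
    have h2 : Real.exp (-(x : ℝ)) = Real.exp (-1) ^ x := by
      rw [← Real.exp_nat_mul]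
      congr 1
      ring
    rw [h2]
    refine pow_le_pow_left₀ (Real.exp_pos _).le ?_ x
    have := Real.exp_neg_one_lt_d9
    linarith
  refine (sum_le_sum (fun x _ => h1 x)).trans ?_
  have := geom_sum_eq (show (1 / 2 : ℝ) ≠ 1 by norm_num) M
  rw [this]
  have h3 : (0 : ℝ) ≤ (1 / 2) ^ M := by positivity
  have h4 : ((1 / 2 : ℝ) ^ M - 1) / (1 / 2 - 1) = 2 - 2 * (1 / 2) ^ M := by ring
  rw [h4]
  linarith

theorem con : S_CON := by
  obtain ⟨K, hK, h⟩ := Pool.Agent.Y981.CT.tail_all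
  refine ⟨7 * K, by positivity, fun n t hn => ?_⟩
  have hL : (1 / 3 : ℝ) ≤ Real.log n ^ 2 := by
    have h1 : (0.69 : ℝ) < Real.log 2 := by
      have := Real.log_two_gt_d9
      linarith
    have h2 : Real.log 2 ≤ Real.log n := Real.log_le_log (by norm_num) (by exact_mod_cast hn)
    nlinarith
  set A : ℝ := Real.log n ^ 2 with hA
  -- the tail
  have tail : ∀ x : ℕ, (((SW n).filter (fun w => K * (A + x) < (cc n t w : ℝ))).card : ℝ) ≤
      Real.exp (-(x : ℝ)) * ((SW n).card : ℝ) := by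
    intro x
    have h1 := h n hn x (Nat.cast_nonneg x)
    have h2 : Pool.Agent.W840.CT.cn n = (SW n).card := by
      rw [← ncard_saw]
      exact Nat.card_coe_set_eq _
    rw [h2] at h1
    refine le_trans ?_ h1
    have h3 : ((SW n).filter (fun w => K * (A + x) < (cc n t w : ℝ))).card ≤
        ({ω | Pool.Agent.W840.CT.SW n ω ∧ ∃ t, K * (Real.log n ^ 2 + x) <
          Pool.Agent.W840.CT.TT n t ω} : Set (Fin (n + 1) → ℤ × ℤ)).ncard := by
      have h4 := ncard_saw_filter n (fun ω => ∃ t, K * (Real.log n ^ 2 + x) <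
          (Pool.Agent.W840.CT.TT n t ω : ℝ))
      have h5 : {ω | IsSAW n ω ∧ ∃ t, K * (Real.log n ^ 2 + x) <
          (Pool.Agent.W840.CT.TT n t ω : ℝ)} = {ω | Pool.Agent.W840.CT.SW n ω ∧ ∃ t,
          K * (Real.log n ^ 2 + x) < (Pool.Agent.W840.CT.TT n t ω : ℝ)} := rfl
      rw [← h5, h4]
      refine card_le_card (fun w hw => ?_)
      rw [mem_filter] at hw ⊢
      refine ⟨hw.1, t, hw.2.trans_le ?_⟩
      exact_mod_cast cc_le n t w
    exact_mod_cast h3
  obtain ⟨M, hM⟩ : ∃ M : ℕ, ∀ w, (cc n t w : ℝ) ≤ K * (A + M) := by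
    obtain ⟨M, hM⟩ := exists_nat_ge (((n + 1) * (n + 1) : ℕ) / K : ℝ)
    refine ⟨M, fun w => ?_⟩
    have h1 : (cc n t w : ℝ) ≤ (((n + 1) * (n + 1) : ℕ) : ℝ) := by exact_mod_cast cc_bound n t w
    rw [div_le_iff₀ hK] at hM
    nlinarith
  have key : ∀ w, (cc n t w : ℝ) ≤
      K * A + K * ∑ x ∈ range M, (if K * (A + x) < (cc n t w : ℝ) then (1 : ℝ) else 0) := by
    intro w
    have := layer (f := (cc n t w : ℝ)) (A := A) hK.le M
    rwa [min_eq_left (hM w)] at this
  change ∑ w ∈ SW n, (cc n t w : ℝ) ≤ 7 * K * A * ((SW n).card : ℝ)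
  calc ∑ w ∈ SW n, (cc n t w : ℝ)
      ≤ ∑ w ∈ SW n, (K * A + K * ∑ x ∈ range M,
          (if K * (A + x) < (cc n t w : ℝ) then (1 : ℝ) else 0)) := sum_le_sum fun w _ => key w
    _ = (SW n).card * (K * A) + K * ∑ x ∈ range M,
          (((SW n).filter (fun w => K * (A + x) < (cc n t w : ℝ))).card : ℝ) := by
        rw [sum_add_distrib, sum_const, nsmul_eq_mul, ← mul_sum, sum_comm]
        congr 2
        refine sum_congr rfl (fun x _ => ?_)
        rw [← sum_filter, sum_const, nsmul_eq_mul, mul_one]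
    _ ≤ (SW n).card * (K * A) + K * ∑ x ∈ range M, Real.exp (-(x : ℝ)) * ((SW n).card : ℝ) := by
        have := sum_le_sum (s := range M) (fun x _ => tail x)
        have := mul_le_mul_of_nonneg_left this hK.le
        linarith
    _ = ((SW n).card : ℝ) * K * (A + ∑ x ∈ range M, Real.exp (-(x : ℝ))) := by
        rw [← sum_mul]
        ring
    _ ≤ ((SW n).card : ℝ) * K * (A + 2) := by
        have := geo M
        have h1 : 0 ≤ ((SW n).card : ℝ) * K := by positivity
        exact mul_le_mul_of_nonneg_left (by linarith) h1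
    _ ≤ ((SW n).card : ℝ) * K * (7 * A) := by
        have h1 : 0 ≤ ((SW n).card : ℝ) * K := by positivity
        exact mul_le_mul_of_nonneg_left (by linarith) h1
    _ = 7 * K * A * ((SW n).card : ℝ) := by ring

end Pool.Agent.N441.EX
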